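import Pool.Agent.helper48.AGR.Spec

/-!
# Row ag:S0
-/

set_option autoImplicit false

namespace Pool.Agent.AGR

open Monoid Function

theorem S0_free {A B : Type} [Group A] [Group B] (vB : Vt →* B) (φ : FreeGroup ℕ →* A)
    (hv : Injective vB) (hφ : Injective φ) :
    Free (MonoidHom.id Vt) ((MonoidHom.inl B A).comp vB)
      (fun i : ℕ => ((1 : B), φ (FreeGroup.of i))) := by
  have hc : ∀ (a : Vt) (j : ℕ), Commute (((MonoidHom.inl B A).comp vB) ((MonoidHom.id Vt) a))
      ((fun i : ℕ => ((1 : B), φ (FreeGroup.of i))) j) := by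
    intro a j
    change ((vB a, (1 : A)) * ((1 : B), φ (FreeGroup.of j))) = ((1 : B), φ (FreeGroup.of j)) * (vB a, (1 : A))
    simp
  refine ⟨hc, ?_⟩
  rw [injective_iff_map_eq_one]
  intro x hx
  have hrep : ∀ x : W (MonoidHom.id Vt) ℕ, ∃ z : Vt × FreeGroup ℕ, x = inr z := by
    intro x
    refine am_induction (motive := fun x => ∃ z : Vt × FreeGroup ℕ, x = inr z) x ?_ ?_ ?_
    · intro γ
      exact ⟨(γ, 1), glue (f := MonoidHom.id Vt) (g := MonoidHom.inl Vt (FreeGroup ℕ)) γ⟩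
    · intro z
      exact ⟨z, rfl⟩
    · rintro x y ⟨z, rfl⟩ ⟨z', rfl⟩
      exact ⟨z * z', (map_mul _ _ _).symm⟩
  obtain ⟨⟨a, w⟩, rfl⟩ := hrep x
  have hlift : FreeGroup.lift (fun i : ℕ => ((1 : B), φ (FreeGroup.of i)))
      = (MonoidHom.inr B A).comp φ := by
    ext i <;> simp
  have hval : W.lift (v := MonoidHom.id Vt) ((MonoidHom.inl B A).comp vB)
      (fun i : ℕ => ((1 : B), φ (FreeGroup.of i))) hc (inr (a, w)) = (vB a, φ w) := by
    unfold W.lift
    rw [lift_inr]
    simp [hlift]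
  rw [hval] at hx
  have h1 : vB a = 1 := congrArg Prod.fst hx
  have h2 : φ w = 1 := congrArg Prod.snd hx
  have h3 : a = 1 := hv (by rw [h1, map_one])
  have h4 : w = 1 := hφ (by rw [h2, map_one])
  rw [h3, h4]
  exact map_one _

theorem S0 (hSB : SB_stmt) (hSC : SC_stmt) : S0_stmt := by
  classical
  obtain ⟨B, gB, vB, cB, hvB, nB, cenB, trB⟩ := hSB
  obtain ⟨A, gA, φ, E, cA, hφ, tfA, hE, hconj⟩ := hSC
  have hfree := S0_free vB φ hvB hφ
  have hinl : Injective ((MonoidHom.inl B A).comp vB) := by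
    intro a b h
    exact hvB (congrArg Prod.fst h)
  have hvg : VG (((MonoidHom.inl B A).comp vB).comp (MonoidHom.id Vt)) := by
    refine ⟨hinl, ?_, ?_⟩
    · rintro ⟨x, y⟩ a
      obtain ⟨b, hb⟩ := nB x a
      refine ⟨b, ?_⟩
      change ((x, y) * (vB a, (1 : A)) * (x, y)⁻¹) = (vB b, (1 : A))
      rw [← hb]
      simp
    · rintro ⟨x, y⟩ hx n hn ⟨a, ha⟩
      have h1 : Cen vB x := by
        intro a
        exact congrArg Prod.fst (hx a).eq
      obtain ⟨b, hb⟩ := cenB x h1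
      have h2 : y ^ n = 1 := congrArg Prod.snd ha
      have h3 : y = 1 := tfA y n hn h2
      refine ⟨b, ?_⟩
      change (x, y) = (vB b, (1 : A))
      rw [hb, h3]
  let S : Sys :=
    { X := B × A
      Γ := Vt
      v := MonoidHom.id Vt
      p := (MonoidHom.inl B A).comp vB
      q := (MonoidHom.inl B A).comp vB
      hp := hinl
      hq := hinl
      hv := fun _ => rfl
      vg := hvg
      e := fun i => ((1 : B), φ (FreeGroup.of i))
      f := fun i => ((1 : B), φ (FreeGroup.of i))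
      fe := hfree
      ff := hfree }
  have hcl : ∀ y ∈ Subgroup.closure (E : Set A),
      (((1 : B), y) : B × A) ∈ Subgroup.closure
        ((E.image (fun x => (((1 : B), x) : B × A)) : Finset (B × A)) : Set (B × A)) := by
    intro y hy
    have h1 : MonoidHom.inr B A y ∈ (Subgroup.closure (E : Set A)).map (MonoidHom.inr B A) :=
      Subgroup.mem_map_of_mem _ hy
    rw [MonoidHom.map_closure] at h1
    rw [Finset.coe_image]
    exact h1
  refine ⟨S, E.image (fun x => (((1 : B), x) : B × A)), ?_, ?_, ?_, ?_, ?_⟩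
  · intro z hz a
    obtain ⟨y, _, rfl⟩ := Finset.mem_image.1 hz
    change (((1 : B), y) * (vB a, (1 : A))) = (vB a, (1 : A)) * ((1 : B), y)
    simp
  · intro i a h
    have h1 : φ (FreeGroup.of i) = 1 := congrArg Prod.snd h
    have h2 : FreeGroup.of i = 1 := hφ (by rw [h1, map_one])
    exact FreeGroup.of_ne_one i h2
  · intro i
    exact ⟨hcl _ (hE i), hcl _ (hE i)⟩
  · intro i
    obtain ⟨c, hc, hci⟩ := hconj i
    refine ⟨((1 : B), c), hcl c hc, ?_⟩
    change (((1 : B), c) * ((1 : B), φ (FreeGroup.of 0)) * ((1 : B), c)⁻¹ : B × A) =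
      ((1 : B), φ (FreeGroup.of i))
    rw [← hci]
    simp
  · intro a b ha hb
    obtain ⟨x, hx⟩ := trB a b ha hb
    refine ⟨(x, (1 : A)), ?_⟩
    change ((x, (1 : A)) * (vB a, (1 : A)) * (x, (1 : A))⁻¹ : B × A) = (vB b, (1 : A))
    rw [← hx]
    simp

end Pool.Agent.AGR
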