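import Pool.Agent.helper48.AGR.Spec

/-!
# Row ag:SA
-/

set_option autoImplicit false

namespace Pool.Agent.AGR

open Monoid Function

theorem SA (hNF : NF_stmt) (hEX : EX_stmt) : SA_stmt := by
  intro L R C L' R' _ _ _ _ _ f g f' g' l r hf hg hl hr hlf hrg F hFl hFr
  have hred : ∀ (a b : Bool) (n : ℕ) (x : Am f' g'), Red f' g' a b n x → Red f g a b n (F x) := by
    intro a b n x h
    induction h with
    | l x hx =>
      rw [hFl]
      refine Red.l _ ?_
      rintro ⟨c, hc⟩
      exact hx ⟨c, hl (by rw [hlf, hc])⟩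
    | r x hx =>
      rw [hFr]
      refine Red.r _ ?_
      rintro ⟨c, hc⟩
      exact hx ⟨c, hr (by rw [hrg, hc])⟩
    | app hx hy ihx ihy =>
      rw [map_mul]
      exact Red.app ihx ihy
  have hf' : Injective f' := by
    intro c c' h
    apply hf
    rw [← hlf, ← hlf, h]
  have hg' : Injective g' := by
    intro c c' h
    apply hg
    rw [← hrg, ← hrg, h]
  rw [injective_iff_map_eq_one]
  intro x hx
  rcases hEX L' R' C f' g' hf' hg' x with ⟨c, rfl⟩ | ⟨a, b, n, h⟩
  · rw [hFl, hlf] at hx
    have h1 : f c = 1 := by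
      apply inl_injective (f := f) (g := g) hf hg
      rw [hx, map_one]
    have h2 : c = 1 := hf (by rw [h1, map_one])
    rw [h2, map_one, map_one]
  · exfalso
    refine hNF L R C f g hf hg a b n _ (hred a b n x h) 1 ?_
    rw [hx, map_one, map_one]

end Pool.Agent.AGR
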