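import Pool.Agent.helper48.AGR.Spec

/-!
# Row ag:SB
-/

set_option autoImplicit false

namespace Pool.Agent.AGR

open Monoid Function

/-- Multiplication by a unit, as an automorphism of the additive group of the rationals. -/
noncomputable def sbMul (r : ℚˣ) : MulAut (Multiplicative ℚ) where
  toFun a := Multiplicative.ofAdd ((r : ℚ) * a.toAdd)
  invFun a := Multiplicative.ofAdd (((r⁻¹ : ℚˣ) : ℚ) * a.toAdd)
  left_inv a := by
    apply Multiplicative.toAdd.injective
    simp only [toAdd_ofAdd]
    rw [← mul_assoc, Units.inv_mul, one_mul]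
  right_inv a := by
    apply Multiplicative.toAdd.injective
    simp only [toAdd_ofAdd]
    rw [← mul_assoc, Units.mul_inv, one_mul]
  map_mul' a b := by
    apply Multiplicative.toAdd.injective
    simp only [toAdd_ofAdd, toAdd_mul]
    ring

/-- The action. -/
noncomputable def sbPhi : ℚˣ →* MulAut (Multiplicative ℚ) where
  toFun := sbMul
  map_one' := by
    ext a
    change Multiplicative.ofAdd (((1 : ℚˣ) : ℚ) * a.toAdd) = a
    rw [Units.val_one, one_mul]
    rfl
  map_mul' r s := by
    ext a
    change Multiplicative.ofAdd (((r * s : ℚˣ) : ℚ) * a.toAdd) =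
      Multiplicative.ofAdd ((r : ℚ) * ((s : ℚ) * a.toAdd))
    rw [Units.val_mul, mul_assoc]

theorem SB : SB_stmt := by
  have hφ : ∀ (r : ℚˣ) (a : Multiplicative ℚ),
      sbPhi r a = Multiplicative.ofAdd ((r : ℚ) * a.toAdd) := fun r a => rfl
  refine ⟨Multiplicative ℚ ⋊[sbPhi] ℚˣ, inferInstance, SemidirectProduct.inl, ?_,
    SemidirectProduct.inl_injective, ?_, ?_, ?_⟩
  · have : Countable ℚˣ := Units.val_injective.countable
    have hinj : Injective (fun x : Multiplicative ℚ ⋊[sbPhi] ℚˣ => (x.left, x.right)) := by
      intro x y h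
      exact SemidirectProduct.ext (congrArg Prod.fst h) (congrArg Prod.snd h)
    have : Countable (Multiplicative ℚ) := inferInstanceAs (Countable ℚ)
    exact hinj.countable
  · intro x a
    refine ⟨sbPhi x.right a, ?_⟩
    ext
    · simp only [SemidirectProduct.mul_left, SemidirectProduct.mul_right, SemidirectProduct.inv_left,
        SemidirectProduct.left_inl, SemidirectProduct.right_inl, mul_one]
      rw [← MulAut.mul_apply, ← map_mul, mul_inv_cancel, map_one, MulAut.one_apply]
      rw [mul_right_comm, mul_inv_cancel, one_mul]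
    · simp
  · intro x hx
    have h1 := hx (Multiplicative.ofAdd 1)
    have h2 : (x * SemidirectProduct.inl (Multiplicative.ofAdd 1)).left =
        (SemidirectProduct.inl (Multiplicative.ofAdd 1) * x).left := congrArg _ h1.eq
    simp only [SemidirectProduct.mul_left, SemidirectProduct.left_inl,
      SemidirectProduct.right_inl, map_one, MulAut.one_apply] at h2
    rw [mul_comm] at h2
    have h3 := mul_right_cancel h2
    rw [hφ] at h3
    have h4 : (x.right : ℚ) = 1 := by
      have h5 := Multiplicative.ofAdd.injective h3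
      simpa using h5
    have h6 : x.right = 1 := Units.ext h4
    refine ⟨x.left, ?_⟩
    ext
    · simp
    · simp [h6]
  · intro a b ha hb
    have ha' : a.toAdd ≠ 0 := fun h => ha (Multiplicative.toAdd.injective h)
    have hb' : b.toAdd ≠ 0 := fun h => hb (Multiplicative.toAdd.injective h)
    refine ⟨SemidirectProduct.inr (Units.mk0 (b.toAdd / a.toAdd) (div_ne_zero hb' ha')), ?_⟩
    rw [← map_inv, ← SemidirectProduct.inl_aut, hφ]
    congr 1
    rw [Units.val_mk0, div_mul_cancel₀ _ ha']
    rfl

end Pool.Agent.AGR
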